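import Mathlib

/-!
# Non-empty cross-`q`-intersecting families: the conjectured bound fails for all `q ≥ 2`, `t ≥ 3`

For every `q ≥ 2` and `t ≥ 3` the parameters `k_1 = ... = k_t = q + 1` and `n = q + 3` are
admissible, and the `t` families all equal to the `(q + 1)`-subsets of a fixed `(q + 2)`-set
have total size `t (q + 2) > max (M_1, M_2) = max (t + 2 q + 2, 3 t)`.
-/

namespace Pool.Agent.Results.MP_e77370_co.FailsForQTwo

open Finset

/-- The admissible parameters: `t ≥ 2`, `q ≥ 1`, `k 1 ≥ k 2 ≥ ... ≥ k t ≥ q + 1` and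
`n ≥ k 1 + k 2 - q + 1`. -/
def Admissible (t q : ℕ) (k : ℕ → ℕ) (n : ℕ) : Prop :=
  2 ≤ t ∧ 1 ≤ q ∧ (∀ i j, 1 ≤ i → i ≤ j → j ≤ t → k j ≤ k i) ∧ q + 1 ≤ k t ∧
    k 1 + k 2 + 1 ≤ n + q

/-- `M_1 = C(n, k_1) - ∑_{j < q} C(k_t, j) C(n - k_t, k_1 - j) + ∑_{j = 2}^t C(n - k_t, k_j - k_t)`,
as an integer. -/
def M1 (t q : ℕ) (k : ℕ → ℕ) (n : ℕ) : ℤ :=
  (n.choose (k 1) : ℤ) - ∑ j ∈ range q, ((k t).choose j : ℤ) * ((n - k t).choose (k 1 - j) : ℤ) +
    ∑ j ∈ Icc 2 t, ((n - k t).choose (k j - k t) : ℤ)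

/-- `M_2 = ∑_{j = 1}^t C(n - q, k_j - q)`, as an integer. -/
def M2 (t q : ℕ) (k : ℕ → ℕ) (n : ℕ) : ℤ :=
  ∑ j ∈ Icc 1 t, ((n - q).choose (k j - q) : ℤ)

/-- The families `F 1, ..., F t` of subsets of an `n`-element set are non-empty, `F j` consists
of `k j`-subsets, and they are pairwise cross-`q`-intersecting. -/
def IsSystem (t q : ℕ) (k : ℕ → ℕ) (n : ℕ) (F : ℕ → Finset (Finset (Fin n))) : Prop :=
  (∀ j, 1 ≤ j → j ≤ t → (F j).Nonempty ∧ ∀ A ∈ F j, A.card = k j) ∧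
    ∀ i j, 1 ≤ i → i ≤ t → 1 ≤ j → j ≤ t → i ≠ j → ∀ A ∈ F i, ∀ B ∈ F j, q ≤ (A ∩ B).card

lemma sum_choose (q : ℕ) (hq : 1 ≤ q) :
    ∑ j ∈ range q, ((q + 1).choose j : ℤ) * ((2 : ℕ).choose (q + 1 - j) : ℤ) =
      ((q + 1).choose 2 : ℤ) := by
  obtain ⟨r, rfl⟩ : ∃ r, q = r + 1 := ⟨q - 1, by omega⟩
  rw [sum_range_succ]
  have h0 : ∑ j ∈ range r, ((r + 1 + 1).choose j : ℤ) * ((2 : ℕ).choose (r + 1 + 1 - j) : ℤ) = 0 := by
    apply sum_eq_zero
    intro j hj
    rw [mem_range] at hj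
    rw [Nat.choose_eq_zero_of_lt (show 2 < r + 1 + 1 - j by omega)]
    simp
  have h1 : r + 1 + 1 - r = 2 := by omega
  have h2 : (r + 1 + 1).choose r = (r + 1 + 1).choose 2 :=
    Nat.choose_symm_of_eq_add (by ring)
  rw [h0, h1, h2]
  simp

/-- **The conjectured bound fails for every `q ≥ 2` and every `t ≥ 3`.** -/
theorem result : ∀ q t : ℕ, 2 ≤ q → 3 ≤ t →
    ∃ (k : ℕ → ℕ) (n : ℕ) (F : ℕ → Finset (Finset (Fin n))),
      Admissible t q k n ∧ IsSystem t q k n F ∧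
      max (M1 t q k n) (M2 t q k n) < ∑ j ∈ Icc 1 t, ((F j).card : ℤ) := by
  intro q t hq ht
  set S : Finset (Fin (q + 3)) := univ.filter (fun x => x ≠ Fin.last (q + 2)) with hS
  have hScard : S.card = q + 2 := by
    rw [hS, filter_ne', card_erase_of_mem (mem_univ _), card_univ, Fintype.card_fin]
    rfl
  refine ⟨fun _ => q + 1, q + 3, fun _ => powersetCard (q + 1) S, ?_, ?_, ?_⟩
  · exact ⟨by omega, by omega, fun _ _ _ _ _ => le_refl _, le_refl _,
      by show (q + 1) + (q + 1) + 1 ≤ (q + 3) + q; omega⟩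
  · refine ⟨fun j _ _ => ⟨?_, fun A hA => (mem_powersetCard.1 hA).2⟩, ?_⟩
    · rw [powersetCard_nonempty]
      omega
    · intro i j _ _ _ _ _ A hA B hB
      obtain ⟨hA1, hA2⟩ := mem_powersetCard.1 hA
      obtain ⟨hB1, hB2⟩ := mem_powersetCard.1 hB
      have h1 := card_union_add_card_inter A B
      have h2 : (A ∪ B).card ≤ S.card := card_le_card (union_subset hA1 hB1)
      omega
  · have hcard : (powersetCard (q + 1) S).card = q + 2 := by
      rw [card_powersetCard, hScard]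
      simp
    simp only [hcard, sum_const, Nat.card_Icc, nsmul_eq_mul, M1, M2]
    have e1 : q + 3 - (q + 1) = 2 := by omega
    have e2 : q + 3 - q = 3 := by omega
    have e3 : q + 1 - q = 1 := by omega
    have e4 : q + 1 - (q + 1) = 0 := by omega
    have e5 : t + 1 - 2 = t - 1 := by omega
    have e6 : t + 1 - 1 = t := by omega
    have e7 : ((t - 1 : ℕ) : ℤ) = (t : ℤ) - 1 := by
      rw [Nat.cast_sub (by omega)]; simp
    rw [e1, e2, e3, e4, e5, e6, e7, sum_choose q (by omega)]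
    have c1 : (q + 3).choose (q + 1) = (q + 3).choose 2 := Nat.choose_symm_of_eq_add (by ring)
    have c2 : ((q + 3).choose 2 : ℤ) = ((q + 1).choose 2 : ℤ) + (2 * q + 3) := by
      have : (q + 3).choose 2 = (q + 1).choose 2 + (2 * q + 3) := by
        rw [Nat.choose_succ_succ' (q + 2) 1, Nat.choose_succ_succ' (q + 1) 1]
        simp
        ring
      exact_mod_cast this
    rw [c1, c2]
    have hq' : (2 : ℤ) ≤ q := by exact_mod_cast hq
    have ht' : (3 : ℤ) ≤ t := by exact_mod_cast ht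
    simp only [Nat.choose_zero_right, Nat.choose_one_right, Nat.cast_one, mul_one]
    rw [max_lt_iff]
    push_cast
    constructor
    · nlinarith
    · nlinarith

end Pool.Agent.Results.MP_e77370_co.FailsForQTwo
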